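import Mathlib
import Pool.Agent.FreeIdx2.Basic

set_option autoImplicit false

namespace Pool.Agent.Results.MP_1a5400_al.BothIndexTwo

/-- There are subgroups `S` and `R` of the free group of rank two, both of index two, and an
isomorphism `f` from `S` onto `R` such that the only subgroup `H` of `S` with `f(H) ⊆ H` is the
trivial subgroup. -/
theorem result :
    ∃ (S R : Subgroup (FreeGroup (Fin 2))) (f : S ≃* R), S.index = 2 ∧ R.index = 2 ∧
      ∀ H : Subgroup (FreeGroup (Fin 2)), H ≤ S →
        (∀ x : S, (x : FreeGroup (Fin 2)) ∈ H → ((f x : R) : FreeGroup (Fin 2)) ∈ H) → H = ⊥ :=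
  ⟨FreeIdx2.S, FreeIdx2.f.range, MonoidHom.ofInjective FreeIdx2.f_injective,
    FreeIdx2.S_index, FreeIdx2.range_index, fun H hHS hinv => FreeIdx2.no_invariant H hHS hinv⟩

end Pool.Agent.Results.MP_1a5400_al.BothIndexTwo
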